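import Pool.Agent.ZPU.Stmts
import Pool.Agent.Helper13_ZP3.RAYa

/-!
ZPU, row RYC: Raynaud's congruence for one pair.
-/

set_option autoImplicit false

namespace Pool.Agent.ZPU.H41

open Polynomial Pool.Agent.ZPT Pool.Agent.ZP3 Pool.Agent.ZPU

section

variable {K : Type} [NormedField K] [IsUltrametricDist K]

theorem ryc_mul {x y : K} {r s : ℝ} (hx : ‖x‖ ≤ r) (hy : ‖y‖ ≤ s) (hr : 0 ≤ r) :
    ‖x * y‖ ≤ r * s := by
  rw [norm_mul]
  exact mul_le_mul hx hy (norm_nonneg _) hr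

theorem ryc_small {x y : K} {r : ℝ} (hx : ‖x‖ ≤ 1) (hy : ‖y‖ ≤ r) : ‖x * y‖ ≤ r := by
  rw [norm_mul]
  calc ‖x‖ * ‖y‖ ≤ 1 * ‖y‖ := mul_le_mul_of_nonneg_right hx (norm_nonneg _)
    _ = ‖y‖ := one_mul _
    _ ≤ r := hy

theorem ryc_dp {p : ℕ} [CharZero K] {A a : ℤ[X]} (h : IsDp p A a) (s : K) :
    aeval (s ^ p) A = aeval s A ^ p + (p : K) * aeval s a := by
  have h1 := congrArg (aeval s) h
  rw [aeval_comp, map_add, map_mul, map_pow, map_pow, aeval_X, aeval_C] at h1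
  rw [h1]
  simp

theorem ryc_ur (hurr : URRStmt) {p : ℕ} (hp : p.Prime) [CharZero K] (hK : Ext p K) {x : K}
    (hx : Ur p x) (A : ℤ[X]) : Ur p (aeval x A) := by
  obtain ⟨h1, -, h3, -, -⟩ := hurr p hp K hK
  induction A using Polynomial.induction_on' with
  | add P Q hP hQ =>
    rw [map_add]
    exact (h1 _ _ hP hQ).1
  | monomial n c =>
    rw [aeval_monomial]
    have hpow : ∀ n : ℕ, Ur p (x ^ n) := by
      intro n
      induction n with
      | zero => simpa using h3 1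
      | succ n ih => rw [pow_succ]; exact (h1 _ _ ih hx).2.1
    have hc := h3 c
    have e : algebraMap ℤ K c = (c : K) := by simp
    rw [e]
    exact (h1 _ _ hc (hpow n)).2.1

end

theorem ryc (hurr : URRStmt) (htef : TEFStmt) (hevo : EVOStmt) (hdpo : DPOStmt) : RYCStmt := by
  intro p hp K _ _ _ hK A B a b hA hB t s η hs hη ht hQt
  obtain ⟨t1, t2, -, -⟩ := htef p hp K hK
  obtain ⟨sUr, s1, -, -⟩ := t1 s hs
  obtain ⟨-, ηUu, -⟩ := t2 η hη
  obtain ⟨u1, -, -, u4, -⟩ := hurr p hp K hK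
  have hη1 : ‖η‖ = 1 := ηUu.2
  have hηUr : Ur p η := ηUu.1
  set ε : ℝ := (p : ℝ)⁻¹ with hε
  have hp1 : (1 : ℝ) < p := by exact_mod_cast hp.one_lt
  have hε0 : 0 < ε := inv_pos.mpr (by linarith)
  have hε1 : ε < 1 := inv_lt_one_of_one_lt₀ hp1
  have hε2 : ε ^ 2 ≤ ε := by nlinarith
  have hpn : ‖(p : K)‖ = ε := H13.normp hp hK
  have ht01 : ‖s ^ p‖ ≤ 1 := H13.ple s1 p
  have ht1 : ‖t‖ ≤ 1 := by
    have e : t = (t - s ^ p) + s ^ p := by ring
    rw [e]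
    exact H13.ule (ht.trans hε1.le) ht01
  obtain ⟨-, -, -, -, -, -, hev⟩ := hevo K
  have hval : ∀ (P : ℤ[X]) (x : K), ‖x‖ ≤ 1 → ‖aeval x P‖ ≤ 1 := fun P x hx => (hev P x x hx hx).1
  set y : K := t - s ^ p with hy
  have hy2 : ‖y‖ ^ 2 ≤ ε ^ 2 := pow_le_pow_left₀ (norm_nonneg _) ht 2
  have hE1 : ‖aeval t A - aeval (s ^ p) A - y * aeval (s ^ p) (derivative A)‖ ≤ ε ^ 2 :=
    ((hev A t (s ^ p) ht1 ht01).2.2).trans hy2
  have hE2 : ‖aeval t B - aeval (s ^ p) B - y * aeval (s ^ p) (derivative B)‖ ≤ ε ^ 2 :=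
    ((hev B t (s ^ p) ht1 ht01).2.2).trans hy2
  have hηp : ‖η ^ p‖ ≤ 1 := H13.ple hη1.le p
  set Q0 : K := aeval (s ^ p) A - η ^ p * aeval (s ^ p) B with hQ0
  set Q1 : K := aeval (s ^ p) (derivative A) - η ^ p * aeval (s ^ p) (derivative B) with hQ1
  have hQ1n : ‖Q1‖ ≤ 1 := H13.usle (hval _ _ ht01) (H13.mle hηp (hval _ _ ht01))
  have hsum : ‖Q0 + y * Q1‖ ≤ ε ^ 2 := by
    have e : Q0 + y * Q1 = (aeval t A - η ^ p * aeval t B)
        - (aeval t A - aeval (s ^ p) A - y * aeval (s ^ p) (derivative A))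
        + η ^ p * (aeval t B - aeval (s ^ p) B - y * aeval (s ^ p) (derivative B)) := by
      rw [hQ0, hQ1]; ring
    rw [e]
    exact H13.ule (H13.usle hQt hE1) (ryc_small hηp hE2)
  have hQ0n : ‖Q0‖ ≤ ε := by
    have e : Q0 = (Q0 + y * Q1) - Q1 * y := by ring
    rw [e]
    exact H13.usle (hsum.trans hε2) (ryc_small hQ1n ht)
  have hAs := ryc_dp hA s
  have hBs := ryc_dp hB s
  set αs : K := aeval s A with hαs
  set βs : K := aeval s B with hβs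
  have hα1 : ‖αs‖ ≤ 1 := hval _ _ s1
  have hβ1 : ‖βs‖ ≤ 1 := hval _ _ s1
  have ha1 : ‖aeval s a‖ ≤ 1 := hval _ _ s1
  have hb1 : ‖aeval s b‖ ≤ 1 := hval _ _ s1
  set D : K := αs ^ p - (η * βs) ^ p with hD
  have hQ0D : Q0 = D + (p : K) * (aeval s a - η ^ p * aeval s b) := by
    rw [hQ0, hAs, hBs, hD, mul_pow]; ring
  have hpx : ∀ x : K, ‖x‖ ≤ 1 → ‖(p : K) * x‖ ≤ ε := by
    intro x hx
    rw [mul_comm]
    exact ryc_small hx hpn.le
  have hDε : ‖D‖ ≤ ε := by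
    have e : D = Q0 - (p : K) * (aeval s a - η ^ p * aeval s b) := by rw [hQ0D]; ring
    rw [e]
    exact H13.usle hQ0n (hpx _ (H13.usle ha1 (H13.mle hηp hb1)))
  have hηβ1 : ‖η * βs‖ ≤ 1 := H13.mle hη1.le hβ1
  have hlt : ‖αs - η * βs‖ < 1 := H13.rootp hp hK hα1 hηβ1 (hDε.trans_lt hε1)
  have hUrα : Ur p αs := ryc_ur hurr hp hK sUr A
  have hUrβ : Ur p βs := ryc_ur hurr hp hK sUr B
  have hle : ‖αs - η * βs‖ ≤ ε :=
    u4 _ (u1 _ _ hUrα (u1 _ _ hηUr hUrβ).2.1).2.2.2 hlt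
  have hD2 : ‖D‖ ≤ ε ^ 2 := H13.powp hp hK hα1 hηβ1 hle
  -- derivatives
  have hder : ∀ P : ℤ[X], ‖aeval s P ^ p - aeval (s ^ p) P‖ ≤ ε := by
    intro P
    obtain ⟨E, hE⟩ := (hdpo p hp P).1
    rw [ryc_dp hE s]
    have e : aeval s P ^ p - (aeval s P ^ p + (p : K) * aeval s E) = -((p : K) * aeval s E) := by
      ring
    rw [e, norm_neg]
    exact hpx _ (hval _ _ s1)
  set A's : K := aeval s (derivative A) with hA's
  set B's : K := aeval s (derivative B) with hB's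
  have hA's1 : ‖A's‖ ≤ 1 := hval _ _ s1
  have hB's1 : ‖B's‖ ≤ 1 := hval _ _ s1
  have hW : aeval s (wr A B) = A's * βs - αs * B's := by
    rw [wr, map_sub, map_mul, map_mul]
  have hWp : ‖(A's * βs - αs * B's) ^ p - ((A's * βs) ^ p - (αs * B's) ^ p)‖ ≤ ε := by
    have h1 := H13.addp hp hK (u := A's * βs - αs * B's) (v := αs * B's)
      (H13.usle (H13.mle hA's1 hβ1) (H13.mle hα1 hB's1)) (H13.mle hα1 hB's1)
    rw [sub_add_cancel] at h1
    have e : (A's * βs - αs * B's) ^ p - ((A's * βs) ^ p - (αs * B's) ^ p)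
        = -((A's * βs) ^ p - (A's * βs - αs * B's) ^ p - (αs * B's) ^ p) := by ring
    rw [e, norm_neg]
    exact h1
  have hR : ‖(A's * βs - αs * B's) ^ p - βs ^ p * Q1‖ ≤ ε := by
    have e : (A's * βs - αs * B's) ^ p - βs ^ p * Q1
        = ((A's * βs - αs * B's) ^ p - ((A's * βs) ^ p - (αs * B's) ^ p))
          + (βs ^ p * (A's ^ p - aeval (s ^ p) (derivative A))
            - αs ^ p * (B's ^ p - aeval (s ^ p) (derivative B))
            - aeval (s ^ p) (derivative B) * D) := by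
      rw [hQ1, hD, mul_pow, mul_pow, mul_pow]; ring
    rw [e]
    refine H13.ule hWp (H13.usle (H13.usle ?_ ?_) ?_)
    · exact ryc_small (H13.ple hβ1 p) (hder _)
    · exact ryc_small (H13.ple hα1 p) (hder _)
    · exact ryc_small (hval _ _ ht01) hDε
  rw [hW]
  have e : (p : K) * (aeval s a * βs ^ p - aeval s b * αs ^ p) + (A's * βs - αs * B's) ^ p * y
      = βs ^ p * (Q0 + y * Q1) - βs ^ p * D - (p : K) * aeval s b * D
        + ((A's * βs - αs * B's) ^ p - βs ^ p * Q1) * y := by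
    rw [hQ0D, hD, mul_pow]; ring
  rw [e]
  refine H13.ule (H13.usle (H13.usle ?_ ?_) ?_) ?_
  · exact ryc_small (H13.ple hβ1 p) hsum
  · exact ryc_small (H13.ple hβ1 p) hD2
  · exact ryc_small ((hpx _ hb1).trans hε1.le) hD2
  · have h1 := ryc_mul hR ht hε0.le
    rw [sq]
    exact h1

end Pool.Agent.ZPU.H41
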